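import Pool.Agent.ACK.StmtsD

/-!
# Squad ACK, row FOU (helper92): at most three classes of twins
-/

set_option autoImplicit false

namespace Pool.Agent.ACK.H92

open Pool.Agent.ACK.D

/-- **FOU** -/
theorem fou (few : FewStmt) (ilb : IlbStmt) (twc : TwcStmt) : FouStmt := by
  intro c l s hc hK hn g hg
  obtain ⟨k, C, b, hCW, hlen, hrot⟩ := few c l s hc hK hn
  have hilb := ilb.2.2.1
  have h1 : ∀ i, ∃ t ∈ b, g i ∈ C t.1 := by
    intro i
    have h2 : g i ∈ BL C b := by
      rw [← hrot, List.mem_rotate]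
      exact hg i
    unfold BL at h2
    rw [List.mem_flatMap] at h2
    obtain ⟨t, ht, h3⟩ := h2
    refine ⟨t, ht, ?_⟩
    unfold bk at h3
    split_ifs at h3
    · exact List.mem_reverse.1 h3
    · exact h3
  choose t ht hgt using h1
  have hcard : (b.map Prod.fst).toFinset.card ≤ 3 := by
    have h2 := List.sum_toFinset_count_eq_length (b.map Prod.fst)
    have h3 : ∑ a ∈ (b.map Prod.fst).toFinset, (b.map Prod.fst).count a =
        ∑ a ∈ (b.map Prod.fst).toFinset, 2 :=
      Finset.sum_congr rfl fun a ha => hCW.tw a (List.mem_toFinset.1 ha)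
    rw [h3, Finset.sum_const, smul_eq_mul, List.length_map] at h2
    omega
  obtain ⟨i, -, j, -, hij, hκ⟩ := Finset.exists_ne_map_eq_of_card_lt_of_maps_to
    (s := (Finset.univ : Finset (Fin 4))) (t := (b.map Prod.fst).toFinset)
    (f := fun i => (t i).1) (by
      rw [Finset.card_univ, Fintype.card_fin]
      omega) (by
      intro i _
      exact List.mem_toFinset.2 (List.mem_map_of_mem (ht i)))
  refine ⟨i, j, hij, fun z hzi hzj => ?_⟩
  have hj : g j ∈ C (t i).1 := by
    have h2 := hgt j
    have h3 : (t i).1 = (t j).1 := hκ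
    rwa [← h3] at h2
  have h2 := twc C b hCW (t i) (ht i) (g i) (hgt i) (g j) hj z hzi hzj
  rw [← hrot, hilb, hilb] at h2
  exact h2

end Pool.Agent.ACK.H92
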