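import Pool.Agent.ACK.StmtsA

/-!
# Squad ACK, row FLG (helper92): the decomposition into single crossings
-/

set_option autoImplicit false

namespace Pool.Agent.ACK.H92

open Pool.Agent.ACK

/-- the tokens, `seen` = the letters so far -/
def fl (s : ℕ → Bool) : List ℕ → List ℕ → List Tk
  | _, [] => []
  | seen, x :: l => (x, s x && decide (x ∈ seen)) :: fl s (x :: seen) l

theorem fl_fst (s : ℕ → Bool) : ∀ (l seen : List ℕ), (fl s seen l).map Prod.fst = l := by
  intro l
  induction l with
  | nil => intro _; rfl
  | cons x l ih => intro seen; simp [fl, ih]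

theorem fl_snd (s : ℕ → Bool) : ∀ (P : List Tk) (t : Tk) (R : List Tk) (seen l : List ℕ),
    fl s seen l = P ++ t :: R →
      t.2 = (s t.1 && decide (t.1 ∈ seen ∨ t.1 ∈ P.map Prod.fst)) := by
  intro P
  induction P with
  | nil =>
    intro t R seen l h
    cases l with
    | nil => simp [fl] at h
    | cons x l =>
      simp only [fl, List.nil_append, List.cons.injEq] at h
      rw [← h.1]
      simp
  | cons p P ih =>
    intro t R seen l h
    cases l with
    | nil => simp [fl] at h
    | cons x l =>
      simp only [fl, List.cons_append, List.cons.injEq] at h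
      rw [ih t R (x :: seen) l h.2, ← h.1]
      congr 1
      simp only [List.map_cons, List.mem_cons]
      congr 1
      apply propext
      tauto

/-- **FLG** -/
theorem flg : FlgStmt := by
  intro l s hl
  have hfst := fl_fst s l []
  refine ⟨fun e => [e], fl s [] l, ⟨?_, ?_, ?_, ?_⟩, ?_, ?_⟩
  · rw [hfst]
    exact hl
  · intro t _
    simp
  · intro t _
    simp
  · intro t _ t' _ h
    intro a ha ha'
    exact h ((List.mem_singleton.1 ha).symm.trans (List.mem_singleton.1 ha'))
  · intro P Q R t t' hb htt x hx
    have hx' : x = t.1 := List.mem_singleton.1 hx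
    subst hx'
    have h1 := fl_snd s P t (Q ++ t' :: R) [] l hb
    have h2 := fl_snd s (P ++ t :: Q) t' R [] l (by rw [hb]; simp)
    have hcount : (List.map Prod.fst P ++ t.1 :: (List.map Prod.fst Q ++ t'.1 ::
        List.map Prod.fst R)).count t.1 = 2 := by
      have h3 : List.map Prod.fst P ++ t.1 :: (List.map Prod.fst Q ++ t'.1 ::
          List.map Prod.fst R) = l := by
        rw [← hfst, hb]
        simp
      rw [h3]
      apply hl
      rw [← h3]
      simp
    rw [← htt] at hcount
    simp only [List.count_append, List.count_cons_self] at hcount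
    have hP : t.1 ∉ P.map Prod.fst := by
      rw [← List.count_eq_zero]
      omega
    have ht : t.2 = false := by
      rw [h1]
      simp only [List.not_mem_nil, false_or]
      rw [decide_eq_false hP, Bool.and_false]
    have ht' : t'.2 = s t.1 := by
      rw [h2, ← htt]
      have : t.1 ∈ ([] : List ℕ) ∨ t.1 ∈ List.map Prod.fst (P ++ t :: Q) := by
        right
        simp
      rw [decide_eq_true this, Bool.and_true]
    rw [ht, ht']
    exact eq_comm
  · have h1 : ∀ b : List Tk, BL (fun e => [e]) b = b.map Prod.fst := by
      intro b
      induction b with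
      | nil => rfl
      | cons t b ih =>
        have h2 : BL (fun e => [e]) (t :: b) = bk (fun e => [e]) t ++ BL (fun e => [e]) b := rfl
        rw [h2, ih]
        unfold bk
        cases t.2 <;> simp
    rw [h1, hfst]

end Pool.Agent.ACK.H92
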