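import Pool.Agent.ACK.StmtsB

/-!
# Squad ACK, row LTC (helper92): the number of the letters
-/

set_option autoImplicit false

namespace Pool.Agent.ACK.H92

open Pool.Agent.ACK Pool.Agent.ACK.B

/-- **LTC** -/
theorem ltc : LtcStmt := by
  intro c w hc hw
  classical
  have hnz : NeZero (2 * c) := ⟨by omega⟩
  have hft : Fintype (ZMod (2 * c)) := Fintype.ofFinite _
  have h0 : Nat.card (Set.range w) = (Finset.univ.image w).card := by
    rw [Nat.card_coe_set_eq, ← Set.ncard_coe_finset]
    congr 1
    ext x
    simp
  rw [h0]
  have h1 : (Finset.univ : Finset (ZMod (2 * c))).card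
      = ∑ x ∈ Finset.univ.image w, (Finset.univ.filter fun i => w i = x).card :=
    Finset.card_eq_sum_card_image w Finset.univ
  have h2 : ∀ x ∈ Finset.univ.image w, (Finset.univ.filter fun i => w i = x).card = 2 := by
    intro x hx
    obtain ⟨i, -, rfl⟩ := Finset.mem_image.1 hx
    obtain ⟨j, hj, hij, hk⟩ := hw i
    have h3 : (Finset.univ.filter fun k => w k = w i) = {i, j} := by
      ext k
      simp only [Finset.mem_filter, Finset.mem_univ, true_and, Finset.mem_insert,
        Finset.mem_singleton]
      constructor
      · exact hk k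
      · rintro (h | h)
        · rw [h]
        · rw [h, hij]
    rw [h3, Finset.card_pair (Ne.symm hj)]
  rw [Finset.sum_congr rfl h2, Finset.sum_const, smul_eq_mul, Finset.card_univ] at h1
  have h3 : Fintype.card (ZMod (2 * c)) = 2 * c := by
    rw [← Nat.card_eq_fintype_card, Nat.card_zmod]
  rw [h3] at h1
  omega

end Pool.Agent.ACK.H92
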